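import Pool.Agent.N463.HW.Stm

/-!
# HW/ORT: orthogonality by Cauchy's theorem (helper93)
-/

set_option autoImplicit false

open MeasureTheory

namespace Pool.Agent.N93.HW.ORT

open Pool.Agent.N463.HW

/-- power series with summable coefficients -/
noncomputable def ps (a : ℕ → ℂ) (z : ℂ) : ℂ := ∑' k : ℕ, a k * z ^ k

lemma bound (a : ℕ → ℂ) (k : ℕ) {z : ℂ} (hz : ‖z‖ ≤ 1) : ‖a k * z ^ k‖ ≤ ‖a k‖ := by
  rw [norm_mul, norm_pow]
  calc ‖a k‖ * ‖z‖ ^ k ≤ ‖a k‖ * 1 := by
        gcongr
        exact pow_le_one₀ (norm_nonneg _) hz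
    _ = ‖a k‖ := mul_one _

lemma ps_cont {a : ℕ → ℂ} (ha : Summable fun k => ‖a k‖) :
    ContinuousOn (ps a) (Metric.closedBall 0 1) := by
  refine continuousOn_tsum (fun k => (continuous_const.mul (continuous_pow k)).continuousOn) ha ?_
  intro k z hz
  exact bound a k (by simpa using hz)

lemma ps_diff {a : ℕ → ℂ} (ha : Summable fun k => ‖a k‖) :
    DifferentiableOn ℂ (ps a) (Metric.ball 0 1) := by
  refine Complex.differentiableOn_tsum_of_summable_norm ha
    (fun k => ((differentiable_const (a k)).mul (differentiable_id.pow k)).differentiableOn)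
    Metric.isOpen_ball ?_
  intro k z hz
  have hz' : ‖z‖ < 1 := by simpa using hz
  exact bound a k hz'.le

lemma ps_exp (a : ℕ → ℂ) (τ : ℝ) :
    ps a (Complex.exp (τ * Complex.I)) = ∑' k : ℕ, a k * Complex.exp (k * τ * Complex.I) := by
  unfold ps
  congr 1
  funext k
  rw [← Complex.exp_nat_mul, mul_assoc]

lemma sum_div {x : ℕ → ℝ} (hx : Summable fun k => |x k|) :
    Summable fun k : ℕ => ‖((x k / k : ℝ) : ℂ)‖ := by
  refine Summable.of_nonneg_of_le (fun k => norm_nonneg _) (fun k => ?_) hx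
  rw [Complex.norm_real, Real.norm_eq_abs, abs_div]
  rcases Nat.eq_zero_or_pos k with rfl | hk
  · simp
  · have h1 : (1 : ℝ) ≤ |(k : ℝ)| := by
      rw [Nat.abs_cast]
      exact_mod_cast hk
    exact div_le_self (abs_nonneg _) h1

/-- **HW-ORT.** -/
theorem t_ORT : S_ORT := by
  intro x n _ hx hn m hm
  set h : ℕ → ℂ := fun k => ((x k / k : ℝ) : ℂ) with hh
  have hh' : Summable fun k => ‖h k‖ := sum_div hx
  set F : ℂ → ℂ := fun z => z ^ (m - 1) * Complex.exp (m * ps h z) * ps n z with hF
  have hc : ContinuousOn F (Metric.closedBall 0 1) :=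
    ((continuous_pow (m - 1)).continuousOn.mul
      (Complex.continuous_exp.comp_continuousOn (continuousOn_const.mul (ps_cont hh')))).mul
      (ps_cont hn)
  have hd : ∀ z ∈ Metric.ball (0 : ℂ) 1 \ ∅, DifferentiableAt ℂ F z := by
    intro z hz
    have hz' : Metric.ball (0 : ℂ) 1 ∈ nhds z := Metric.isOpen_ball.mem_nhds hz.1
    have d1 : DifferentiableAt ℂ (ps h) z := (ps_diff hh').differentiableAt hz'
    have d2 : DifferentiableAt ℂ (ps n) z := (ps_diff hn).differentiableAt hz'
    exact ((differentiableAt_id.pow (m - 1)).mul ((d1.const_mul (m : ℂ)).cexp)).mul d2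
  have key := Complex.circleIntegral_eq_zero_of_differentiable_on_off_countable
    (zero_le_one' ℝ) Set.countable_empty hc hd
  have e : ∀ τ : ℝ, deriv (circleMap 0 1) τ • F (circleMap 0 1 τ) =
      Complex.I * (Complex.exp (m * (τ * Complex.I + gs x τ)) * Ns n τ) := by
    intro τ
    have e1 : circleMap 0 1 τ = Complex.exp (τ * Complex.I) := by
      simp [circleMap]
    have e2 : ps h (Complex.exp (τ * Complex.I)) = gs x τ := ps_exp h τ
    have e3 : ps n (Complex.exp (τ * Complex.I)) = Ns n τ := ps_exp n τ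
    have e4 : Complex.exp (τ * Complex.I) * Complex.exp (τ * Complex.I) ^ (m - 1) =
        Complex.exp (m * (τ * Complex.I)) := by
      rw [← pow_succ', Nat.sub_add_cancel hm, ← Complex.exp_nat_mul]
    rw [deriv_circleMap, hF]
    simp only [e1, e2, e3, smul_eq_mul]
    rw [mul_add, Complex.exp_add, ← e4]
    ring
  rw [circleIntegral] at key
  simp only [e] at key
  rw [intervalIntegral.integral_const_mul] at key
  exact (mul_eq_zero.1 key).resolve_left Complex.I_ne_zero

end Pool.Agent.N93.HW.ORT
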